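import Pool.Agent.Y262.EG.Stm

/-!
# Project EG: the weak derivatives of an invariant function vanish where the curvature is negative
-/

set_option autoImplicit false

open Set Filter Topology MeasureTheory

namespace Pool.Agent.Y848.EG

open Pool.Agent.Y262.EG

theorem bdd {P : Type} [TopologicalSpace P] [CompactSpace P] {F : P → ℝ} (hF : Continuous F) :
    ∃ C : ℝ, 0 ≤ C ∧ ∀ x, |F x| ≤ C := by
  obtain ⟨C, hC⟩ := (isCompact_univ (X := P)).exists_bound_of_continuousOn hF.continuousOn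
  exact ⟨max C 0, le_max_right _ _, fun x => (hC x (mem_univ x)).trans (le_max_left _ _)⟩

section

variable {P : Type} [MetricSpace P] [CompactSpace P] [MeasurableSpace P] [BorelSpace P]
  {m : Measure P} [IsFiniteMeasure m]

theorem int_cont {F : P → ℝ} (hF : Continuous F) : Integrable F m := by
  obtain ⟨C, -, hC⟩ := bdd hF
  exact Integrable.of_bound hF.aestronglyMeasurable C (ae_of_all _ hC)

theorem int_mul {f F : P → ℝ} (hf : Measurable f) (hfb : ∃ C, ∀ x, |f x| ≤ C)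
    (hF : Continuous F) : Integrable (fun x => f x * F x) m := by
  obtain ⟨C, hC⟩ := hfb
  obtain ⟨C', hC', hC''⟩ := bdd hF
  refine Integrable.of_bound (hf.mul hF.measurable).aestronglyMeasurable (|C| * C')
    (ae_of_all _ fun x => ?_)
  rw [Real.norm_eq_abs, abs_mul]
  exact mul_le_mul ((hC x).trans (le_abs_self C)) (hC'' x) (abs_nonneg _) (abs_nonneg _)

end

theorem slope_neg (h1 : StJac1) {k c c1 s s1 : ℝ → ℝ} (hj : Jac k c c1 s s1) (hk : ∀ t, 0 ≤ k t)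
    {T : ℝ} (hT : 0 < T) : -(c T / s T) ≤ -(1 / T) :=
  ((h1 k c c1 s s1 hj hk).2.2.2 T (-(c T / s T)) (fun t => c t + -(c T / s T) * s t)
    (fun t => c1 t + -(c T / s T) * s1 t) hT rfl (fun _ => rfl) (fun _ => rfl)).1

theorem slope_low (h2 : StJac2) {k c c1 s s1 : ℝ → ℝ} (hj : Jac k c c1 s s1)
    (hk : ∀ t, 0 ≤ k t) {T : ℝ} (hT : 0 < T) (τ κ : ℝ) (h3 : 0 < τ) (h4 : τ ≤ T) (h5 : 0 ≤ κ)
    (h6 : ∀ t ∈ Icc 0 τ, κ ≤ k t) : min (κ * τ / 2) (1 / (2 * τ)) ≤ -(-(c T / s T)) :=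
  (h2 k c c1 s s1 hj hk T (-(c T / s T)) (fun t => c t + -(c T / s T) * s t)
    (fun t => c1 t + -(c T / s T) * s1 t) hT rfl (fun _ => rfl) (fun _ => rfl)).2.2.1
      τ κ h3 h4 h5 h6

section

variable {P : Type} [MetricSpace P] [CompactSpace P] [MeasurableSpace P] [BorelSpace P]
  {m : Measure P} {Fl : ℝ → P → P} {Ac : (P → ℝ) → Prop} {dX dH dV : (P → ℝ) → P → ℝ}
  {k : P → ℝ} {c c1 s s1 : ℝ → P → ℝ}

omit [BorelSpace P] in
/-- the curvature stays away from `0` for a short time -/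
theorem near (hP : Pk m Fl Ac dX dH dV k c c1 s s1) {ε : ℝ} (hε : 0 < ε) :
    ∃ τ : ℝ, 0 < τ ∧ τ ≤ 1 ∧ ∀ x, ε ≤ k x → ∀ t ∈ Icc 0 τ, ε / 2 ≤ k (Fl t x) := by
  obtain ⟨Λ, hΛ0, hΛ⟩ := bdd (hP.dvX.ct k hP.kA)
  refine ⟨min 1 (ε / (2 * (Λ + 1))), lt_min one_pos (by positivity), min_le_left _ _, ?_⟩
  intro x hx t ht
  have hL : ∀ y ∈ Icc (0 : ℝ) t, HasDerivWithinAt (fun τ => k (Fl τ x)) (dX k (Fl y x))
      (Icc 0 t) y := fun y _ => (hP.alg k hP.kA x y).hasDerivWithinAt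
  have hb := (convex_Icc (0 : ℝ) t).norm_image_sub_le_of_norm_hasDerivWithin_le hL
    (C := Λ) (fun y _ => hΛ _) (left_mem_Icc.2 ht.1) (right_mem_Icc.2 ht.1)
  simp only [sub_zero, Real.norm_eq_abs, hP.fl0, abs_of_nonneg ht.1] at hb
  have h1 : t ≤ ε / (2 * (Λ + 1)) := ht.2.trans (min_le_right _ _)
  have h2 : Λ * t ≤ ε / 2 := by
    rw [le_div_iff₀ (by positivity)] at h1
    nlinarith [ht.1]
  have h3 := neg_abs_le (k (Fl t x) - k x)
  linarith

omit [CompactSpace P] [BorelSpace P] in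
/-- the bound for one derivation -/
theorem one_bound {d : (P → ℝ) → P → ℝ} (hP : Pk m Fl Ac dX dH dV k c c1 s s1)
    (hd : Dv m Ac d) {χ u v : P → ℝ} {ε m0 Cχ Cd : ℝ} (hχ : Ac χ) (hu : Ac u) (hv : Ac v)
    (hsup : ∀ x, χ x ≠ 0 → ε ≤ k x) (hm0 : 0 < m0) (hCχ : ∀ x, |χ x| ≤ Cχ)
    (hCd : ∀ x, |d χ x| ≤ Cd) (hpos : ∀ x, 0 < (-1) * u x + (-1) * v x)
    (hlow : ∀ x, ε ≤ k x → m0 ≤ (-1) * u x + (-1) * v x) (x : P) :
    (d (fun x => χ x * ((-1) * u x + (-1) * v x)⁻¹) x) ^ 2 ≤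
      2 * (Cd / m0) ^ 2 + 4 * (Cχ / m0 ^ 2) ^ 2 * ((d u x) ^ 2 + (d v x) ^ 2) := by
  have hmA : Ac (fun x => (-1) * u x + (-1) * v x) := hP.add u v hu hv (-1) (-1)
  have hiA : Ac (fun x => ((-1) * u x + (-1) * v x)⁻¹) := hP.inv _ hmA (fun x => (hpos x).ne')
  have h1 := hd.mul χ _ hχ hiA x
  have h2 := hd.inv _ hmA (fun x => (hpos x).ne') x
  have h3 := hd.add u v hu hv (-1) (-1) x
  rw [h1, h2, h3]
  have hCχ0 : 0 ≤ Cχ := (abs_nonneg _).trans (hCχ x)
  have hCd0 : 0 ≤ Cd := (abs_nonneg _).trans (hCd x)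
  by_cases hx : ε ≤ k x
  · have hM := hlow x hx
    set M := (-1) * u x + (-1) * v x with hMdef
    have hM0 : 0 < M := hpos x
    have ha : |d χ x * M⁻¹| ≤ Cd / m0 := by
      rw [abs_mul, abs_of_pos (inv_pos.2 hM0), ← div_eq_mul_inv]
      exact div_le_div₀ hCd0 (hCd x) hm0 hM
    have hb : |χ x * (-((-1 * d u x + -1 * d v x) / M ^ 2))| ≤
        Cχ / m0 ^ 2 * |d u x + d v x| := by
      rw [abs_mul, abs_neg, abs_div, abs_of_pos (pow_pos hM0 2)]
      have e1 : |(-1 : ℝ) * d u x + -1 * d v x| = |d u x + d v x| := by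
        rw [← abs_neg]; congr 1; ring
      rw [e1]
      calc |χ x| * (|d u x + d v x| / M ^ 2) = |χ x| / M ^ 2 * |d u x + d v x| := by ring
        _ ≤ Cχ / m0 ^ 2 * |d u x + d v x| := by
            apply mul_le_mul_of_nonneg_right _ (abs_nonneg _)
            exact div_le_div₀ hCχ0 (hCχ x) (by positivity)
              (pow_le_pow_left₀ hm0.le hM 2)
    have hc : |d χ x * M⁻¹ + χ x * (-((-1 * d u x + -1 * d v x) / M ^ 2))| ≤
        Cd / m0 + Cχ / m0 ^ 2 * |d u x + d v x| := (abs_add_le _ _).trans (add_le_add ha hb)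
    rw [← sq_abs]
    have hd2 : |d u x + d v x| ^ 2 ≤ 2 * ((d u x) ^ 2 + (d v x) ^ 2) := by
      rw [sq_abs]
      nlinarith [sq_nonneg (d u x - d v x)]
    calc |d χ x * M⁻¹ + χ x * (-((-1 * d u x + -1 * d v x) / M ^ 2))| ^ 2
        ≤ (Cd / m0 + Cχ / m0 ^ 2 * |d u x + d v x|) ^ 2 :=
          pow_le_pow_left₀ (abs_nonneg _) hc 2
      _ ≤ 2 * (Cd / m0) ^ 2 + 2 * (Cχ / m0 ^ 2 * |d u x + d v x|) ^ 2 := by
          nlinarith [sq_nonneg (Cd / m0 - Cχ / m0 ^ 2 * |d u x + d v x|)]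
      _ = 2 * (Cd / m0) ^ 2 + 2 * (Cχ / m0 ^ 2) ^ 2 * |d u x + d v x| ^ 2 := by ring
      _ ≤ 2 * (Cd / m0) ^ 2 + 2 * (Cχ / m0 ^ 2) ^ 2 * (2 * ((d u x) ^ 2 + (d v x) ^ 2)) := by
          have := mul_le_mul_of_nonneg_left hd2
            (show 0 ≤ 2 * (Cχ / m0 ^ 2) ^ 2 by positivity)
          linarith
      _ = 2 * (Cd / m0) ^ 2 + 4 * (Cχ / m0 ^ 2) ^ 2 * ((d u x) ^ 2 + (d v x) ^ 2) := by ring
  · have hx' : k x < ε := not_le.1 hx
    have hev : ∀ᶠ y in 𝓝 x, χ y = 0 := by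
      filter_upwards [(hP.ct k hP.kA).continuousAt.eventually (gt_mem_nhds hx')] with y hy
      by_contra hne
      exact absurd (hsup y hne) (not_le.2 hy)
    have h4 : d χ x = 0 := hd.loc χ hχ x hev
    have h5 : χ x = 0 := hev.self_of_nhds
    rw [h4, h5]
    refine le_trans (le_of_eq (b := 0) ?_) (by positivity)
    ring

/-- the first step: the vertical direction -/
theorem killV (h1 : StJac1) (h2 : StJac2) (h3 : StRev) (h4 : StL2) (h5 : StFwd)
    (hP : Pk m Fl Ac dX dH dV k c c1 s s1) {f : P → ℝ} (hf : Measurable f)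
    (hfb : ∃ C, ∀ x, |f x| ≤ C) (hinv : ∀ t x, f (Fl t x) = f x) {χ : P → ℝ} {ε : ℝ}
    (hχ : Ac χ) (hε : 0 < ε) (hsup : ∀ x, χ x ≠ 0 → ε ≤ k x) : ∫ x, f x * dV χ x ∂m = 0 := by
  have hfin := hP.fin
  have hR := h3 P m Fl Ac dX dH dV k c c1 s s1 hP
  obtain ⟨Cu, hCu⟩ := h4 P m Fl Ac dX dH dV k c c1 s s1 hP
  obtain ⟨Cv, hCv⟩ := h4 P m _ _ _ _ _ _ _ _ _ _ hR
  have hF1 := h5 P m Fl Ac dX dH dV k c c1 s s1 hP f hf hfb hinv
  have hF2 := h5 P m _ _ _ _ _ _ _ _ _ _ hR f hf hfb (fun t x => hinv (-t) x)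
  set c' : ℝ → P → ℝ := fun t x => c (-t) x with hc'
  set s' : ℝ → P → ℝ := fun t x => -s (-t) x with hs'
  obtain ⟨τ, hτ0, hτ1, hτ⟩ := near hP hε
  obtain ⟨Cχ, hCχ0, hCχ⟩ := bdd (hP.ct χ hχ)
  obtain ⟨Cd1, hCd10, hCd1⟩ := bdd (hP.dvH.ct χ hχ)
  obtain ⟨Cd2, hCd20, hCd2⟩ := bdd (hP.dvV.ct χ hχ)
  set m0 : ℝ := min (ε / 2 * τ / 2) (1 / (2 * τ)) with hm0
  have hm0p : 0 < m0 := lt_min (by positivity) (by positivity)
  -- the slopes
  have hu : ∀ T, 1 ≤ T → ∀ x, 0 < -uu c s T x := by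
    intro T hT x
    have hT0 : 0 < T := by linarith
    have := slope_neg h1 (hP.jac x) (fun t => hP.k0 _) hT0
    have h6 : 0 < 1 / T := by positivity
    unfold uu
    linarith
  have hv : ∀ T, 1 ≤ T → ∀ x, 0 < -uu c' s' T x := by
    intro T hT x
    have hT0 : 0 < T := by linarith
    have := slope_neg h1 (hR.jac x) (fun t => hR.k0 _) hT0
    have h6 : 0 < 1 / T := by positivity
    unfold uu
    linarith
  have hpos : ∀ T, 1 ≤ T → ∀ x, 0 < (-1) * uu c s T x + (-1) * uu c' s' T x := by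
    intro T hT x
    have e1 := hu T hT x
    have e2 := hv T hT x
    linarith
  have hlow : ∀ T, 1 ≤ T → ∀ x, ε ≤ k x →
      m0 ≤ (-1) * uu c s T x + (-1) * uu c' s' T x := by
    intro T hT x hx
    have e2 := hv T hT x
    have hT0 : 0 < T := by linarith
    have e3 := slope_low h2 (hP.jac x) (fun t => hP.k0 _) hT0 τ (ε / 2) hτ0 (hτ1.trans hT)
      (by positivity) (hτ x hx)
    have e4 : -(-(c T x / s T x)) = -uu c s T x := rfl
    rw [e4] at e3
    linarith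
  have huA : ∀ T, 1 ≤ T → Ac (uu c s T) := fun T hT => (hP.uA T (by linarith)).1
  have hvA : ∀ T, 1 ≤ T → Ac (uu c' s' T) := fun T hT => (hR.uA T (by linarith)).1
  set ψ : ℝ → P → ℝ := fun T x => χ x * ((-1) * uu c s T x + (-1) * uu c' s' T x)⁻¹ with hψ
  have hψA : ∀ T, 1 ≤ T → Ac (ψ T) := fun T hT =>
    hP.mul χ _ hχ (hP.inv _ (hP.add _ _ (huA T hT) (hvA T hT) (-1) (-1))
      (fun x => (hpos T hT x).ne'))
  have hψb : ∀ T, 1 ≤ T → ∀ x, |ψ T x| ≤ Cχ / m0 := by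
    intro T hT x
    by_cases hx : χ x = 0
    · have : ψ T x = 0 := by simp only [hψ, hx, zero_mul]
      rw [this, abs_zero]; positivity
    · have e1 := hlow T hT x (hsup x hx)
      have e2 := hpos T hT x
      simp only [hψ]
      rw [abs_mul, abs_of_pos (inv_pos.2 e2), ← div_eq_mul_inv]
      exact div_le_div₀ hCχ0 (hCχ x) hm0p e1
  set A : ℝ := 2 * (Cd1 / m0) ^ 2 + 2 * (Cd2 / m0) ^ 2 with hA
  set B : ℝ := 4 * (Cχ / m0 ^ 2) ^ 2 with hB
  have hA0 : 0 ≤ A := by positivity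
  have hB0 : 0 ≤ B := by positivity
  have hptw : ∀ T, 1 ≤ T → ∀ x, (dH (ψ T) x) ^ 2 + (dV (ψ T) x) ^ 2 ≤
      A + B * (((dH (uu c s T) x) ^ 2 + (dV (uu c s T) x) ^ 2) +
        ((-dH (uu c' s' T) x) ^ 2 + (dV (uu c' s' T) x) ^ 2)) := by
    intro T hT x
    have e1 := one_bound hP hP.dvH hχ (huA T hT) (hvA T hT) hsup hm0p hCχ hCd1 (hpos T hT)
      (hlow T hT) x
    have e2 := one_bound hP hP.dvV hχ (huA T hT) (hvA T hT) hsup hm0p hCχ hCd2 (hpos T hT)
      (hlow T hT) x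
    have e3 : (-dH (uu c' s' T) x) ^ 2 = (dH (uu c' s' T) x) ^ 2 := by ring
    rw [e3]
    calc (dH (ψ T) x) ^ 2 + (dV (ψ T) x) ^ 2
        ≤ (2 * (Cd1 / m0) ^ 2 + B * ((dH (uu c s T) x) ^ 2 + (dH (uu c' s' T) x) ^ 2)) +
          (2 * (Cd2 / m0) ^ 2 + B * ((dV (uu c s T) x) ^ 2 + (dV (uu c' s' T) x) ^ 2)) :=
          add_le_add e1 e2
      _ = _ := by rw [hA]; ring
  have hint : ∀ {F : P → ℝ}, Continuous F → Integrable F m := fun hF => int_cont hF
  have hbd : ∀ T, 1 ≤ T → ∫ x, ((dH (ψ T) x) ^ 2 + (dV (ψ T) x) ^ 2) ∂m ≤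
      A * (m univ).toReal + B * (Cu + Cv) := by
    intro T hT
    have i1 : Continuous (fun x => (dH (uu c s T) x) ^ 2 + (dV (uu c s T) x) ^ 2) :=
      ((hP.dvH.ct _ (huA T hT)).pow 2).add ((hP.dvV.ct _ (huA T hT)).pow 2)
    have i2 : Continuous (fun x => (-dH (uu c' s' T) x) ^ 2 + (dV (uu c' s' T) x) ^ 2) :=
      ((hP.dvH.ct _ (hvA T hT)).neg.pow 2).add ((hP.dvV.ct _ (hvA T hT)).pow 2)
    have i3 : Continuous (fun x => (dH (ψ T) x) ^ 2 + (dV (ψ T) x) ^ 2) :=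
      ((hP.dvH.ct _ (hψA T hT)).pow 2).add ((hP.dvV.ct _ (hψA T hT)).pow 2)
    have e1 : ∫ x, ((dH (uu c s T) x) ^ 2 + (dV (uu c s T) x) ^ 2) ∂m ≤ Cu := (hCu T hT).2
    have e2 : ∫ x, ((-dH (uu c' s' T) x) ^ 2 + (dV (uu c' s' T) x) ^ 2) ∂m ≤ Cv :=
      (hCv T hT).2
    calc ∫ x, ((dH (ψ T) x) ^ 2 + (dV (ψ T) x) ^ 2) ∂m
        ≤ ∫ x, (A + B * (((dH (uu c s T) x) ^ 2 + (dV (uu c s T) x) ^ 2) +
          ((-dH (uu c' s' T) x) ^ 2 + (dV (uu c' s' T) x) ^ 2))) ∂m := by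
          apply integral_mono (hint i3)
          · exact hint (continuous_const.add (continuous_const.mul (i1.add i2)))
          · exact fun x => hptw T hT x
      _ = A * (m univ).toReal + B * ((∫ x, ((dH (uu c s T) x) ^ 2 + (dV (uu c s T) x) ^ 2) ∂m) +
          ∫ x, ((-dH (uu c' s' T) x) ^ 2 + (dV (uu c' s' T) x) ^ 2) ∂m) := by
          have q1 := hint i1
          have q2 := hint i2
          have q3 : Integrable (fun x => B * (((dH (uu c s T) x) ^ 2 + (dV (uu c s T) x) ^ 2) +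
            ((-dH (uu c' s' T) x) ^ 2 + (dV (uu c' s' T) x) ^ 2))) m := (q1.add q2).const_mul B
          rw [integral_add (integrable_const A) q3, integral_const_mul,
            integral_add q1 q2, integral_const]
          simp only [smul_eq_mul, Measure.real]
          ring
      _ ≤ A * (m univ).toReal + B * (Cu + Cv) := by
          have := mul_le_mul_of_nonneg_left (add_le_add e1 e2) hB0
          linarith
  set CC : ℝ := max (Cχ / m0) (A * (m univ).toReal + B * (Cu + Cv)) with hCC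
  have t1 := hF1 ψ CC (fun T hT => ⟨hψA T hT, fun x => (hψb T hT x).trans (le_max_left _ _),
    (hbd T hT).trans (le_max_right _ _)⟩)
  have t2 := hF2 ψ CC (fun T hT => ⟨hψA T hT, fun x => (hψb T hT x).trans (le_max_left _ _), by
    have e3 : (fun x => (-dH (ψ T) x) ^ 2 + (dV (ψ T) x) ^ 2) =
        fun x => (dH (ψ T) x) ^ 2 + (dV (ψ T) x) ^ 2 := by
      funext x; ring
    rw [e3]
    exact (hbd T hT).trans (le_max_right _ _)⟩)
  have t3 := t1.add t2
  have hev : ∀ᶠ T : ℝ in atTop, (∫ x, f x * (dH (ψ T) x + dV (fun x => uu c s T x * ψ T x) x) ∂m) +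
      (∫ x, f x * (-dH (ψ T) x + dV (fun x => uu c' s' T x * ψ T x) x) ∂m) =
      -∫ x, f x * dV χ x ∂m := by
    filter_upwards [eventually_ge_atTop (1 : ℝ)] with T hT
    have hA1 : Ac (fun x => uu c s T x * ψ T x) := hP.mul _ _ (huA T hT) (hψA T hT)
    have hA2 : Ac (fun x => uu c' s' T x * ψ T x) := hP.mul _ _ (hvA T hT) (hψA T hT)
    rw [← integral_add, ← integral_neg]
    · congr 1
      funext x
      have e4 := hP.dvV.add _ _ hA1 hA2 1 1 x
      have e5 : (fun x => 1 * (uu c s T x * ψ T x) + 1 * (uu c' s' T x * ψ T x)) =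
          fun x => (-1) * χ x + 0 * χ x := by
        funext y
        simp only [hψ]
        have e8 := mul_inv_cancel₀ (hpos T hT y).ne'
        linear_combination (-(χ y)) * e8
      rw [e5] at e4
      have e7 := hP.dvV.add χ χ hχ hχ (-1) 0 x
      rw [e7] at e4
      linear_combination (-(f x)) * e4
    · exact int_mul hf hfb ((hP.dvH.ct _ (hψA T hT)).add (hP.dvV.ct _ hA1))
    · exact int_mul hf hfb ((hP.dvH.ct _ (hψA T hT)).neg.add (hP.dvV.ct _ hA2))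
  have t4 := tendsto_nhds_unique (t3.congr' hev) tendsto_const_nhds
  linarith

/-- the statement `StKill` -/
theorem kill : StJac1 → StJac2 → StRev → StL2 → StFwd → StKill := by
  intro h1 h2 h3 h4 h5 P _ _ _ _ m Fl Ac dX dH dV k c c1 s s1 hP f hf hfb hinv χ ε hχ hε hsup
  have hfin := hP.fin
  have hV := killV h1 h2 h3 h4 h5 hP hf hfb hinv hχ hε hsup
  refine ⟨?_, ?_, hV⟩
  · -- the flow direction
    obtain ⟨C, hC⟩ := hfb
    obtain ⟨Cχ, hCχ0, hCχ⟩ := bdd (hP.ct χ hχ)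
    obtain ⟨Cd, hCd0, hCd⟩ := bdd (hP.dvX.ct χ hχ)
    have hflc : ∀ t, Continuous (Fl t) := fun t =>
      hP.flc.comp (continuous_const.prodMk continuous_id)
    have hder : HasDerivAt (fun t => ∫ x, f x * χ (Fl t x) ∂m)
        (∫ x, f x * dX χ (Fl 0 x) ∂m) 0 := by
      refine (hasDerivAt_integral_of_dominated_loc_of_deriv_le (μ := m)
        (F := fun t x => f x * χ (Fl t x)) (F' := fun t x => f x * dX χ (Fl t x))
        (x₀ := (0 : ℝ)) (s := univ) (bound := fun _ => |C| * Cd) univ_mem ?_ ?_ ?_ ?_ ?_ ?_).2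
      · exact Eventually.of_forall fun t =>
          (int_mul hf ⟨C, hC⟩ ((hP.ct χ hχ).comp (hflc t))).aestronglyMeasurable
      · exact int_mul hf ⟨C, hC⟩ ((hP.ct χ hχ).comp (hflc 0))
      · exact (int_mul hf ⟨C, hC⟩ ((hP.dvX.ct χ hχ).comp (hflc 0))).aestronglyMeasurable
      · refine ae_of_all _ fun x t _ => ?_
        rw [Real.norm_eq_abs, abs_mul]
        exact mul_le_mul ((hC x).trans (le_abs_self C)) (hCd _) (abs_nonneg _) (abs_nonneg _)
      · exact int_cont continuous_const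
      · exact ae_of_all _ fun x t _ => (hP.alg χ hχ x t).const_mul (f x)
    have hconst : (fun t => ∫ x, f x * χ (Fl t x) ∂m) = fun _ => ∫ x, f x * χ x ∂m := by
      funext t
      have e1 : (fun x => f x * χ (Fl t x)) = fun x => (fun y => f y * χ y) (Fl t x) := by
        funext x; simp only [hinv t x]
      rw [e1]
      have e2 := integral_map (μ := m) (φ := Fl t) (hP.flm t).measurable.aemeasurable
        (f := fun y => f y * χ y)
        ((hf.mul (hP.ct χ hχ).measurable).aestronglyMeasurable)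
      rw [(hP.flm t).map_eq] at e2
      exact e2.symm
    rw [hconst] at hder
    have e3 := hder.unique (hasDerivAt_const (0 : ℝ) (∫ x, f x * χ x ∂m))
    simp only [hP.fl0] at e3
    exact e3
  · -- the horizontal direction
    obtain ⟨Cu, hCu⟩ := h4 P m Fl Ac dX dH dV k c c1 s s1 hP
    obtain ⟨Cχ, hCχ0, hCχ⟩ := bdd (hP.ct χ hχ)
    have t1 := h5 P m Fl Ac dX dH dV k c c1 s s1 hP f hf hfb hinv (fun _ => χ)
      (max Cχ (∫ x, ((dH χ x) ^ 2 + (dV χ x) ^ 2) ∂m))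
      (fun T _ => ⟨hχ, fun x => (hCχ x).trans (le_max_left _ _), le_max_right _ _⟩)
    have hev : ∀ᶠ T : ℝ in atTop,
        (∫ x, f x * (dH χ x + dV (fun x => uu c s T x * χ x) x) ∂m) =
        ∫ x, f x * dH χ x ∂m := by
      filter_upwards [eventually_ge_atTop (1 : ℝ)] with T hT
      have hA1 : Ac (fun x => uu c s T x * χ x) :=
        hP.mul _ _ (hP.uA T (by linarith)).1 hχ
      have e1 := killV h1 h2 h3 h4 h5 hP hf hfb hinv hA1 hε (fun x hx => hsup x (by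
        intro h0
        apply hx
        rw [h0, mul_zero]))
      have e2 : (fun x => f x * (dH χ x + dV (fun x => uu c s T x * χ x) x)) =
          fun x => f x * dH χ x + f x * dV (fun x => uu c s T x * χ x) x := by
        funext x; ring
      rw [e2, integral_add (int_mul hf hfb (hP.dvH.ct χ hχ))
        (int_mul hf hfb (hP.dvV.ct _ hA1)), e1, add_zero]
    exact tendsto_nhds_unique (tendsto_const_nhds.congr' (hev.mono fun _ h => h.symm)) t1

end

end Pool.Agent.Y848.EG
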